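import Pool.Agent.Helper49E.Fin

/-!
# MP_148101_nt, Q1: zeros and poles at the edge for all Adams operations on motives

`V_1, …, V_r` are (the cohomologies in one degree of) arbitrary Chow motives over a number field `K`, for
instance over `ℚ`.  For `k = (k_1, …, k_r) ∈ ℤ^r` and a Hecke character `χ` let `L_{k,χ}` be the
`L`-function of `ψ^{k_1} V_1 ⊗ ⋯ ⊗ ψ^{k_r} V_r ⊗ χ`, where `ψ^k` are the Adams operations: the
eigenvalues of Frobenius on `ψ^k V` are the `k`-th powers of those on `V` (for `k < 0` this is
`ψ^{-k}` of the dual), and `ψ^k V` is a virtual sum of tensor constructions of `V`, for example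
`ψ^2 V = Sym^2 V - Λ^2 V`.  So `L_{k,χ}` is a quotient of products of `L`-functions as in Q1.  Almost
nothing is known about these functions at the edge `e_k` of their half planes of absolute convergence.

The theorem restricts the possible zeros and poles at the points `e_k`, for all `k` and `χ` together.
The characters `χ` run through an arbitrary group `G` of Hecke characters, for instance the trivial one;
or all `Nv^{-iτ}`, `τ ∈ ℝ`, which means that the points of the whole edge lines are considered; or all
unitary Hecke characters of type (A) (twists by algebraic Hecke characters, on all edge lines).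

The definitions are in `Pool.Agent.Helper49E.Defs` and `Pool.Agent.HS37.HT.Defs`.

Proof: along an ultrafilter of `ε → 0`, the mean values `φ(k, χ)` of the normalised traces of Frobenius
form a positive definite function on `ℤ^r × G`; at a point where `L_{k,χ}` has an order the real part of
the value is minus the order.  The rest is harmonic analysis of integral positive definite functions on
commutative groups, in the spirit of the theorems of Helson and Cohen on idempotent measures: for (2) a
prediction argument, for (3) weak limits of translates in a Hilbert space.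
-/

set_option autoImplicit false

namespace Pool.Agent.Results.MP_148101_nt.AdamsOperations

open NumberField IsDedekindDomain Filter Topology Polynomial
open Pool.Agent.Helper49E
open Pool.Agent.HS37.HT (LFun)

/-- **Adams operations on motives at the edge.**  Let `V_1, …, V_r` be motives over a number field `K`,
of ranks `N_i` and weights `w_i`, `N = N_1 ⋯ N_r`, and `χ` an injective homomorphism from a group `G` to
the group of Hecke characters of `K`.  For `x = (k, g) ∈ ℤ^r × G` consider the order of `L_x = L_{k,χ_g}`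
at `e_k = (∑ k_i w_i)/2 + 1`; here `L_x` has the order `m` if `|L_x(e_k + ε)| = ε^{m + o(1)}` as
`ε → 0+`.
1. `L_x(e_k + ε) ≠ 0` for small `ε > 0`; and if `L_x` has a meromorphic continuation to a neighbourhood
   of `e_k`, of order `m` at `e_k`, then it has the order `m` in the above sense.
2. (Positivity; nothing is assumed about the orders.)  For all finitely supported real `c` and all
   `η > 0`, the sum of `c_x c_y s_{y-x}`, with `s_x = log |L_x(e_k + ε)| / log(1/ε)`, is at least `-η`
   for all small `ε > 0`.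
3. (Periodicity.)  Let `x, l ∈ ℤ^r × G`.  If `L_{x+jl}` has an order `m_j` for all large `j`, then the
   sequence `m_j` is eventually periodic.  (For instance, for two motives `V` and `W`: the orders of
   `L(ψ^j V ⊗ W, s)` at the edge are an eventually periodic function of `j`, if they exist for large
   `j`.)
4. (Structure.)  Suppose that `L_x` has an order `m(x)` for all `x = (k, g)` with `k ≠ 0`.  Then:
   (a) There are `n ≤ N` subgroups `Δ_i` of `ℤ^r × G` and finitely supported integral functions `c_i`
   such that, with `φ_i(x)` the sum of the `c_i(a)` over all `a ≡ x mod Δ_i`, one has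
   `m(x) = -∑ φ_i(x)` for all `x` with `k ≠ 0`.  The functions `φ_i` are positive definite, with
   `φ_i(0) ≥ 1`, and `Δ_i` contains at most `N` elements with `k = 0`.
   (b) For every direction `l` with `k ≠ 0` there is `P ≥ 1` such that for every `x` one has
   `m(x + (j+P)l) = m(x + jl)` for all but finitely many `j ∈ ℤ`.
   (c) If infinitely many of the `L_x`, `k ≠ 0`, have a zero or a pole at the edge, then there is a
   direction `l` with `k ≠ 0` such that all `L_{jl}`, `j = 1, 2, 3, …`, have a pole. -/
theorem result (K : Type) [Field K] [NumberField K] (r : ℕ) (V : Fin r → Motive K)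
    (G : Type) [AddCommGroup G] (χ : G → HeightOneSpectrum (𝓞 K) → ℂ) (hχ : HeckeGroup χ) :
    (∀ x : (Fin r → ℤ) × G,
      (∀ B, IsEuler V x.1 (χ x.2) B → ∀ᶠ ε : ℝ in 𝓝[>] 0, LFun B (edge V x.1 + ε) ≠ 0) ∧
      ∀ m, Continues V x.1 (χ x.2) m → HasOrder V x.1 (χ x.2) m) ∧
    (∀ B : (Fin r → ℤ) × G → HeightOneSpectrum (𝓞 K) → ℂ[X],
      (∀ x, IsEuler V x.1 (χ x.2) (B x)) → ∀ (c : (Fin r → ℤ) × G →₀ ℝ) (η : ℝ), 0 < η →
      ∀ᶠ ε : ℝ in 𝓝[>] 0,
        -η ≤ c.sum fun a s => c.sum fun b t => s * t * size V (b - a).1 (B (b - a)) ε) ∧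
    (∀ (x l : (Fin r → ℤ) × G) (m : ℕ → ℤ) (j₀ : ℕ),
      (∀ j : ℕ, j₀ ≤ j → HasOrder V (x + j • l).1 (χ (x + j • l).2) (m j)) →
      ∃ P, 1 ≤ P ∧ ∃ j₁, ∀ j, j₁ ≤ j → m (j + P) = m j) ∧
    ∀ m : (Fin r → ℤ) × G → ℤ, (∀ x, x.1 ≠ 0 → HasOrder V x.1 (χ x.2) (m x)) →
      (∃ (n : ℕ) (Δ : Fin n → AddSubgroup ((Fin r → ℤ) × G))
        (c : Fin n → (Fin r → ℤ) × G →₀ ℤ), n ≤ rk V ∧
        (∀ i, PosDef (coef (Δ i) (c i)) ∧ 1 ≤ coef (Δ i) (c i) 0 ∧
          ∀ s : Finset G, (∀ g ∈ s, ((0, g) : (Fin r → ℤ) × G) ∈ Δ i) → s.card ≤ rk V) ∧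
        ∀ x, x.1 ≠ 0 → m x = -∑ i, coef (Δ i) (c i) x) ∧
      (∀ l : (Fin r → ℤ) × G, l.1 ≠ 0 → ∃ P : ℕ, 1 ≤ P ∧ ∀ x,
        {j : ℤ | m (x + (j + P) • l) ≠ m (x + j • l)}.Finite) ∧
      ({x : (Fin r → ℤ) × G | x.1 ≠ 0 ∧ m x ≠ 0}.Infinite →
        ∃ l : (Fin r → ℤ) × G, l.1 ≠ 0 ∧ ∀ j : ℕ, 1 ≤ j → m (j • l) < 0) :=
  ⟨fun x => ⟨fun _ hB => ne_zero (hχ.hecke x.2) hB, fun _ h => continues_order (hχ.hecke x.2) h⟩,
    fun _ hB c _ hη => sizes_pos hχ hB c hη, fun x l _ _ hm => one_sided_orders hχ x l hm,
    fun _ hm => structure_thm hχ hm⟩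

end Pool.Agent.Results.MP_148101_nt.AdamsOperations
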