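import Pool.Agent.HS37.HT.Fin

/-!
# MP_148101_nt, Q1: twists of the `L`-functions of motives by Hecke characters, on the edge line

`M` is an arbitrary Chow motive over a number field `K` (for instance over `ℚ`, or the base change of a
motive over `ℚ`), `H = H^w(M)`, `N = dim H`.  Nothing is known about `L(H, s)` to the left of the line
`Re s = w/2 + 1`, the edge of the half plane of absolute convergence, and even on this line its zeros
and poles are not known.  (For odd `w` the function should be entire, and zeros on the line should never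
occur.)  We consider the twists by all unitary Hecke characters of type (A) of `K`, i.e. by the algebraic
Hecke characters, of all infinity types, all conductors, and all imaginary shifts; the twists by the
algebraic Hecke characters are again `L`-functions of motives (with coefficients).  The shifts
`χ ↦ χ N^{-iτ}` are included, so the point `w/2 + 1` stands for all points of the line.

The definitions are in `Pool.Agent.HS37.HT.Defs`.

Proof: the Hecke `L`-functions of all these characters have entire continuations (or a simple pole, in the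
case of the trivial character) and no zeros on the line `Re s = 1` (libraries `N784.HC`, `Y772`, `Y773` of
the starting point).  Hence the characters, with the weights `Nv^{-1-ε}`, `ε → 0`, are orthonormal, and
those of infinite order are equidistributed on the circle.  `- ord L(H ⊗ χ)` is the mean value of
`χ(v) tr(Frob_v) Nv^{-w/2}`.  For (1) use Bessel's inequality, for (2) that the trace is real and the mean
value of `|Re χ|` is `2/π`, for (3) that the mean value of `|Re χ₁ ± Re χ₂|` is at most `35/36`, for (4)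
Fejér kernels on the compact group dual to the group generated by the exceptional characters.
-/

set_option autoImplicit false

namespace Pool.Agent.Results.MP_148101_nt.HeckeTwists

open NumberField IsDedekindDomain Filter Topology Polynomial
open Pool.Agent.HS37.HT

/-- **Hecke twists of motives on the edge line.**  Let `K` be a number field and `H` the cohomology of a
motive over `K`, of weight `w` and rank `N`.
1. For all pairwise inequivalent Hecke characters `χ_k` (`k` in a finite set) and all `η > 0`, for all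
   small `ε > 0`: `L(H ⊗ χ_k, w/2 + 1 + ε) ≠ 0`, and the sum of the squares of
   `x_k = log |L(H ⊗ χ_k, w/2 + 1 + ε)| / log(1/ε)` is at most `N² + η` (nothing is assumed about
   continuation).  If there are meromorphic continuations to neighbourhoods of `w/2 + 1`, of orders
   `m_k`, then `∑ m_k² ≤ N²`.
2. If `χ` is of infinite order, then `|x| ≤ 2N/π + η`, and `|m| ≤ 2N/π`.
3. If `χ₁`, `χ₂` are of infinite order and `χ₁` is equivalent neither to `χ₂` nor to its conjugate, then
   `|x₁| + |x₂| ≤ 35N/36 + η`, and `|m₁| + |m₂| ≤ 35N/36`.  (So for `N = 1` no twist of infinite order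
   has a zero or a pole at `w/2 + 1`, and for `N = 2` at most one and its conjugate, as for an elliptic
   curve with complex multiplication, and then of order `±1`.)
4. Suppose that for every Hecke character `χ` the function `L(H ⊗ χ, s)` has a meromorphic continuation
   to a neighbourhood of `w/2 + 1`, of order `m(χ)`.  There are pairwise inequivalent Hecke characters
   `χ_1, …, χ_n`, `n ≤ N²`, with `m(χ_k) ≠ 0`, such that `m(χ) = 0` if `χ` is not equivalent to one of
   them, and `∑ m(χ_k)² ≤ N²`, `|∑ m(χ_k)| ≤ N` and `|∑ m(χ_k) χ_k(v)| ≤ N` for almost all primes `v`.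
   (In particular, if there are no zeros, then there are at most `N` poles, with multiplicity.) -/
theorem result (K : Type) [Field K] [NumberField K] (H : Motive K) :
    ((∀ (κ : Type) [Fintype κ] (χ : κ → HeightOneSpectrum (𝓞 K) → ℂ)
        (B : κ → HeightOneSpectrum (𝓞 K) → ℂ[X]), (∀ k, IsHecke (χ k)) →
        (∀ k l, k ≠ l → ¬ Equivalent (χ k) (χ l)) → (∀ k, IsEuler H (χ k) (B k)) →
        ∀ η : ℝ, 0 < η → ∀ᶠ ε : ℝ in 𝓝[>] 0, (∀ k, LFun (B k) (edge H + ε) ≠ 0) ∧
          ∑ k, size H (B k) ε ^ 2 ≤ (H.rank : ℝ) ^ 2 + η) ∧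
      ∀ (κ : Type) [Fintype κ] (χ : κ → HeightOneSpectrum (𝓞 K) → ℂ) (m : κ → ℤ),
        (∀ k, IsHecke (χ k)) → (∀ k l, k ≠ l → ¬ Equivalent (χ k) (χ l)) →
        (∀ k, HasOrder H (χ k) (m k)) → ∑ k, m k ^ 2 ≤ (H.rank : ℤ) ^ 2) ∧
    (∀ χ : HeightOneSpectrum (𝓞 K) → ℂ, IsHecke χ → InfiniteOrder χ →
      (∀ B, IsEuler H χ B → ∀ η : ℝ, 0 < η → ∀ᶠ ε : ℝ in 𝓝[>] 0,
        |size H B ε| ≤ 2 * H.rank / Real.pi + η) ∧
      ∀ m : ℤ, HasOrder H χ m → |(m : ℝ)| ≤ 2 * H.rank / Real.pi) ∧
    (∀ χ₁ χ₂ : HeightOneSpectrum (𝓞 K) → ℂ, IsHecke χ₁ → InfiniteOrder χ₁ → IsHecke χ₂ →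
      InfiniteOrder χ₂ → ¬ Equivalent χ₁ χ₂ → ¬ Equivalent χ₁ (fun v => starRingEnd ℂ (χ₂ v)) →
      (∀ B₁ B₂, IsEuler H χ₁ B₁ → IsEuler H χ₂ B₂ → ∀ η : ℝ, 0 < η → ∀ᶠ ε : ℝ in 𝓝[>] 0,
        |size H B₁ ε| + |size H B₂ ε| ≤ 35 / 36 * H.rank + η) ∧
      ∀ m₁ m₂ : ℤ, HasOrder H χ₁ m₁ → HasOrder H χ₂ m₂ →
        |(m₁ : ℝ)| + |(m₂ : ℝ)| ≤ 35 / 36 * H.rank) ∧
    ∀ m : (HeightOneSpectrum (𝓞 K) → ℂ) → ℤ, (∀ χ, IsHecke χ → HasOrder H χ (m χ)) →
      ∃ (n : ℕ) (χ : Fin n → HeightOneSpectrum (𝓞 K) → ℂ), n ≤ H.rank ^ 2 ∧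
        (∀ k, IsHecke (χ k) ∧ m (χ k) ≠ 0) ∧ (∀ k l, k ≠ l → ¬ Equivalent (χ k) (χ l)) ∧
        (∀ χ', IsHecke χ' → m χ' ≠ 0 → ∃ k, Equivalent χ' (χ k)) ∧
        ∑ k, m (χ k) ^ 2 ≤ (H.rank : ℤ) ^ 2 ∧ |∑ k, m (χ k)| ≤ H.rank ∧
        ∀ᶠ v in cofinite, ‖∑ k, (m (χ k) : ℂ) * χ k v‖ ≤ H.rank := by
  refine ⟨⟨fun κ _ χ B hχ hne hB η hη => sizes H κ χ B hχ hne hB hη, fun κ _ χ m hχ hne hm => ?_⟩,
    fun χ hχ hi => ⟨fun B hB η hη => size_one H hχ hi hB hη, fun m hm => order_one H hχ hi hm⟩,
    fun χ₁ χ₂ h₁ i₁ h₂ i₂ hne hnc => ⟨fun B₁ B₂ b₁ b₂ η hη =>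
      size_two H h₁ i₁ b₁ h₂ i₂ b₂ hne hnc hη, fun m₁ m₂ o₁ o₂ =>
      order_two H h₁ i₁ o₁ h₂ i₂ o₂ hne hnc⟩, orders_all H⟩
  exact orders H Finset.univ χ m (fun k _ => hχ k) (fun k _ l _ hkl => hne k l hkl)
    fun k _ => hm k

end Pool.Agent.Results.MP_148101_nt.HeckeTwists
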