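import Pool.Agent.Helper43x.NW.Tup

/-!
# MP_148101_nt, Q1: tensor products of an arbitrary Chow motive with newforms of all weights

Let `M` be any Chow motive over `ℚ` and `H = H^w(M)`, of dimension `N`.  Nothing is known about the
`L`-function `L(H, s)` to the left of the line `Re s = w/2 + 1` at the edge of the half plane of absolute
convergence, and even on this line its zeros and poles are not known.  Let `f_i`, `i ∈ ι`, be
different newforms of arbitrary even weights and arbitrary levels, with trivial character; for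
example all of them.  Let `M(f_i)` be the motives of rank two of Scholl (over the field of the
coefficients).  We prove that the `L`-functions of the motives `M ⊗ M(f_{l_0}) ⊗ ⋯ ⊗ M(f_{l_k})`
behave on the whole edge line as conjectured for `100` percent of all tuples `l`: no pole and no zero.

For example (`k = 0`): let `r(f, τ)` be the order of `L(H ⊗ M(f), s)` at the point of the edge line
of imaginary part `τ`.  Over all newforms `f` of all even weights and levels and all `τ` for which the
order exists, the sum of the `r(f, τ)²` over the poles is at most `N²`, and the sum over the zeros also.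
So at most `N²` of these `L`-functions have a pole on the edge line, and each only finitely many.

The definitions are in `Pool.Agent.Helper43x.NW.Defs`, `Pool.Agent.Y149.TL.Defs` and
`Pool.Agent.Y149.PK.Defs`.

Proof: the normalised Hecke eigenvalues of two newforms are orthogonal at all heights, from one side.
For this the completed Rankin-Selberg series of two forms of DIFFERENT weights is needed, with
elementary means.  In `Pool.Agent.Helper43x.NW` the weight is changed by the averages of a form over
the hyperbolic circles of radius `artanh(1/2)` against a character (this commutes with `SL₂(ℝ)`); the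
Mellin transform of the product of the two kernels is a product of a Gamma function and a factor
without zeros for `Re s > 0`; then unfolding with the theta function of `ℤ²` (library of the starting
point, `Pool.Agent.W165.RS`, `Pool.Agent.Y722.RS`, `Pool.Agent.Y149.CR`) and, for the height `0`, an
element of determinant `p` which normalises `Γ₀(Np)`.
-/

set_option autoImplicit false

namespace Pool.Agent.Results.MP_148101_nt.NewformTensors

open Filter Topology Polynomial
open Pool.Agent.Y149.CM (LFun)
open Pool.Agent.Y149.PK (tuples)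
open Pool.Agent.Y149.TL (Motive edge size HasOrder)
open Pool.Agent.Helper43x.NW

/-- **Tensor products with newforms.**  `H` is the cohomology of a motive over `ℚ`, of weight `w` and
rank `N` (only the eigenvalues of Frobenius at almost all primes matter), and `f_i`, `i ∈ ι`, are
different newforms of arbitrary even weights and arbitrary levels.  For a tuple `l = (l_0, …, l_k)` write
`H_l = H ⊗ M(f_{l_0}) ⊗ ⋯ ⊗ M(f_{l_k})`, of weight `w_l`, the sum of `w` and of the numbers
`weight(f_{l_j}) - 1`.
1. For every finite set `J` of indices, every finite set `Θ` of heights and every `η > 0`, for all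
small `ε > 0`, let `x(l, τ) = log |L(H_l, w_l/2 + 1 + iτ + ε)| / log(1/ε)`, `l ∈ J^{k+1}`, `τ ∈ Θ`.
Then the sum of the squares of the positive `x(l, τ)` is at most `N² 4^k |J|^k + η`, and also the sum of
the squares of the negative ones.
2. Let `r(l, τ)` be the orders of `L(H_l, s)` at the points `w_l/2 + 1 + iτ`, over any finite set `S` of
pairs `(l, τ)`, `l ∈ J^{k+1}`, for which the order exists.  The sum of the squares of the orders of the
zeros is at most `N² 4^k |J|^k`, and also the sum of the squares of the orders of the poles.  In particular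
for all but `N² 4^k |J|^k` of the `|J|^{k+1}` tuples `L(H_l, s)` has no pole on the whole edge line, as
far as it continues to a neighbourhood of a point of the line; and the same for the zeros.
3. If `ι` is infinite, then for every sequence `H_0, H_1, …` of motives there is an infinite subset
`𝒥` of `ι` with finite subsets `G_0, G_1, …` such that for every `j`, every number `k` and every tuple
`l` of `k` different members of `𝒥`, not all of them in `G_j`, all orders of
`L(H_j ⊗ M(f_{l_0}) ⊗ ⋯ ⊗ M(f_{l_{k-1}}), s)` on the edge line are `0`. -/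
theorem result (ι : Type) (F : ι → Newform) (hF : ∀ i j, i ≠ j → Differ (F i) (F j)) :
    (∀ (H : Motive) (k : ℕ) (J : Finset ι) (Θ : Finset ℝ)
      (B : (Fin (k + 1) → ι) → Nat.Primes → ℂ[X]),
      (∀ l, (∀ i, l i ∈ J) → IsLFactor H F (List.ofFn l) (B l)) → ∀ η : ℝ, 0 < η →
      ∀ᶠ ε : ℝ in 𝓝[>] 0,
        (∀ l ∈ tuples J (k + 1), ∀ τ ∈ Θ,
          LFun (B l) (edge (H.weight + wt F (List.ofFn l)) τ + ε) ≠ 0) ∧
        ∑ l ∈ tuples J (k + 1), ∑ τ ∈ Θ,
          max (size (H.weight + wt F (List.ofFn l)) (B l) τ ε) 0 ^ 2 ≤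
            (H.rank : ℝ) ^ 2 * 4 ^ k * (J.card : ℝ) ^ k + η ∧
        ∑ l ∈ tuples J (k + 1), ∑ τ ∈ Θ,
          max (-size (H.weight + wt F (List.ofFn l)) (B l) τ ε) 0 ^ 2 ≤
            (H.rank : ℝ) ^ 2 * 4 ^ k * (J.card : ℝ) ^ k + η) ∧
    (∀ (H : Motive) (k : ℕ) (J : Finset ι) (B : (Fin (k + 1) → ι) → Nat.Primes → ℂ[X])
      (S : Finset ((Fin (k + 1) → ι) × ℝ)) (r : (Fin (k + 1) → ι) × ℝ → ℤ),
      (∀ x ∈ S, (∀ i, x.1 i ∈ J) ∧ IsLFactor H F (List.ofFn x.1) (B x.1) ∧
        HasOrder (H.weight + wt F (List.ofFn x.1)) (B x.1) x.2 (r x)) →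
      ∑ x ∈ S, max (r x) 0 ^ 2 ≤ (H.rank : ℤ) ^ 2 * 4 ^ k * (J.card : ℤ) ^ k ∧
      ∑ x ∈ S, max (-r x) 0 ^ 2 ≤ (H.rank : ℤ) ^ 2 * 4 ^ k * (J.card : ℤ) ^ k) ∧
    (Infinite ι → ∀ H : ℕ → Motive, ∃ 𝒥 : Set ι, 𝒥.Infinite ∧
      ∀ j, ∃ G : Finset ι, (∀ x ∈ G, x ∈ 𝒥) ∧
        ∀ (k : ℕ) (l : Fin k → ι), Function.Injective l → (∀ i, l i ∈ 𝒥) → (∃ i, l i ∉ G) →
        ∀ B : Nat.Primes → ℂ[X], IsLFactor (H j) F (List.ofFn l) B →
        ∀ (τ : ℝ) (r : ℤ), HasOrder ((H j).weight + wt F (List.ofFn l)) B τ r → r = 0) := by
  refine ⟨fun H k J Θ B hB η hη => ?_, fun H k J B S r hS => ?_, fun hι H => universal hF H⟩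
  · filter_upwards [tuple_mean hF H k J Θ hB (Or.inl rfl : (1 : ℝ) = 1 ∨ (1 : ℝ) = -1) hη,
      tuple_mean hF H k J Θ hB (Or.inr rfl : (-1 : ℝ) = 1 ∨ (-1 : ℝ) = -1) hη] with ε h1 h2
    refine ⟨h1.1, ?_, ?_⟩
    · simpa only [one_mul] using h1.2
    · simpa only [neg_one_mul] using h2.2
  · have h1 := tuple_order hF H k J S (fun x hx => (hS x hx).1) (fun x hx => (hS x hx).2.1)
      (fun x hx => (hS x hx).2.2) (Or.inl rfl : (1 : ℤ) = 1 ∨ (1 : ℤ) = -1)
    have h2 := tuple_order hF H k J S (fun x hx => (hS x hx).1) (fun x hx => (hS x hx).2.1)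
      (fun x hx => (hS x hx).2.2) (Or.inr rfl : (-1 : ℤ) = 1 ∨ (-1 : ℤ) = -1)
    refine ⟨?_, ?_⟩
    · simpa only [one_mul] using h1
    · simpa only [neg_one_mul] using h2

end Pool.Agent.Results.MP_148101_nt.NewformTensors
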