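import Pool.Agent.HS37.WT.Cnt

/-!
# MP_148101_nt, Q1: twists of motives by monomial representations of the Weil group, on the edge line

`M` is an arbitrary Chow motive over a number field `K` (for instance over `ℚ`), `H = H^w(M)`,
`N = dim H`.  Nothing is known about `L(H, s)` to the left of the line `Re s = w/2 + 1`, the edge of the
half plane of absolute convergence, and even on this line its zeros and poles are not known.

We consider all finite extensions `F` of `K` and all unitary Hecke characters `χ` of `F` of type (A) (of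
all infinity types, with the imaginary shifts `χ N^{-iτ}`, so that the point `w/2 + 1` stands for all
points of the line), and the functions `L(H_F ⊗ χ, s) = L(H ⊗ Ind_F^K χ, s)`.  Here `Ind_F^K χ` is a
monomial representation of the global Weil group of `K`; by Brauer's theorem every representation of
this group is a virtual combination of monomial ones.  If `χ` comes from an algebraic Hecke character,
then the `L`-function is the one of a motive again, of `M` tensored with the restriction of scalars of a
motive of CM type.  `common K χ χ'` is the number of composites of `F` and `F'` on which `χ` and `χ'`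
agree, that is (Mackey) the dimension of the space of homomorphisms from `Ind_F^K χ` to
`Ind_{F'}^K χ'`.  The definitions are in `Pool.Agent.HS37.WT.Defs` and `Pool.Agent.HS37.HT.Defs`.

Proof: `- ord L(H_F ⊗ χ)` is the mean value, over the primes `v` of `K` with the weights `Nv^{-1-ε}`,
`ε → 0`, of `T(v) S_χ(v)`, where `T(v)` is the normalised trace of Frobenius and `S_χ(v)` the sum of
`χ(x)` over the primes `x` of `F` of degree one above `v`.  These correspond to the homomorphisms from
the integers of `F` to the residue field of `v`; for almost all `v` a homomorphism from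
`𝓞 F ⊗ 𝓞 F'` extends uniquely to exactly one of the rings of integers of the composites of `F` and `F'`,
so `S_χ(v) conj S_χ'(v)` is the sum over the composites `E` of the functions `S` of the Hecke characters
`(χ ∘ N_{E/F}) · conj (χ' ∘ N_{E/F'})` of `E`.  Their mean values are `0` or `1`, since Hecke
`L`-functions have no zeros on the line `Re s = 1` and no poles for nontrivial characters.  Then use
Bessel's inequality, on the set of primes `v` with a prime of degree one above.
-/

set_option autoImplicit false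

namespace Pool.Agent.Results.MP_148101_nt.WeilGroupTwists

open NumberField IsDedekindDomain Filter Topology Polynomial
open Pool.Agent.HS37.HT (LFun IsHecke)
open Pool.Agent.HS37.WT

/-- **Monomial twists of motives on the edge line.**  Let `H` be the cohomology of a motive over the
number field `K`, of weight `w` and rank `N`.
1. Let `F_k` be finitely many finite extensions of `K`, `χ_k` a Hecke character of `F_k`, `G_kl` the
   dimension of `Hom(Ind χ_k, Ind χ_l)` (`common K (χ k) (χ l)`), and let `δ` be at least the density of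
   the primes of `K` that have a prime of degree one above in one of the fields `F_k`.  Nothing is assumed
   about continuation: for small `ε > 0`, `L(H_{F_k} ⊗ χ_k, w/2 + 1 + ε) ≠ 0`, and
   `x_k = log |L(H_{F_k} ⊗ χ_k, w/2 + 1 + ε)| / log(1/ε)` satisfies
   `(∑ c_k x_k)² ≤ δ N² ∑ c_k c_l G_kl + η` (for all real `c_k`, `η > 0`, for small `ε`); if the `Ind χ_k`
   are pairwise disjoint then `∑ x_k² / G_kk ≤ δ N² + η`.  The same holds for the orders `m_k` at
   `w/2 + 1`, without `η`, if there are meromorphic continuations to neighbourhoods of this point.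
   (So if the `Ind χ_k` are irreducible and pairwise inequivalent, then `∑ m_k² ≤ N²`.)
2. If all `F_k` contain the Galois extension `F₀` of `K`, then `δ = 1/[F₀ : K]` is allowed in 1 (for
   example `F₀ = K`, `δ = 1`).
3. In particular, if `F` contains a Galois extension `F₀` of `K` and `G = dim End(Ind_F^K χ)`, then
   `x² ≤ G N² / [F₀ : K] + η` and `m² ≤ G N² / [F₀ : K]`; if `[F₀ : K] > G N²`, then `L(H_F ⊗ χ, s)` has
   neither a zero nor a pole at `w/2 + 1`.
4. For every `D` there are at most `D N²` exceptional pairs `(F_k, χ_k)`, `[F_k : K] ≤ D`, with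
   pairwise disjoint `Ind χ_k`, such that for every exceptional pair `(F, χ)`, `[F : K] ≤ D`, the
   representation `Ind χ` has a common constituent with one of the `Ind χ_k` (exceptional: there is a
   continuation with a zero or a pole at `w/2 + 1`).
5. If `F/K` is a Galois extension, then the number `G` for two Hecke characters `χ`, `χ'` of `F` is the
   number of `σ ∈ Gal(F/K)` such that `χ(x) = χ'(σ⁻¹ x)` for almost all primes `x` of `F`. -/
theorem result (K : Type) [Field K] [NumberField K] (H : Motive K) :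
    (∀ (κ : Type) [Fintype κ] (F : κ → Type) [∀ k, Field (F k)] [∀ k, NumberField (F k)]
        [∀ k, Algebra K (F k)] (χ : ∀ k, HeightOneSpectrum (𝓞 (F k)) → ℂ) (δ : ℝ),
        (∀ k, IsHecke (χ k)) → DensityLE {v | ∃ k, v ∈ degOne K (F k)} δ →
      (∀ B : ∀ k, HeightOneSpectrum (𝓞 (F k)) → ℂ[X], (∀ k, IsEuler H (χ k) (B k)) →
        ∀ η : ℝ, 0 < η →
        (∀ᶠ ε : ℝ in 𝓝[>] 0, ∀ k, LFun (B k) (edge H + ε) ≠ 0) ∧
        (∀ c : κ → ℝ, ∀ᶠ ε : ℝ in 𝓝[>] 0, (∑ k, c k * size H (B k) ε) ^ 2 ≤
          δ * (H.rank : ℝ) ^ 2 * (∑ k, ∑ l, c k * c l * common K (χ k) (χ l)) + η) ∧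
        ((∀ k l, k ≠ l → common K (χ k) (χ l) = 0) → ∀ᶠ ε : ℝ in 𝓝[>] 0,
          ∑ k, size H (B k) ε ^ 2 / common K (χ k) (χ k) ≤ δ * (H.rank : ℝ) ^ 2 + η)) ∧
      ∀ m : κ → ℤ, (∀ k, HasOrder H (χ k) (m k)) →
        (∀ c : κ → ℝ, (∑ k, c k * m k) ^ 2 ≤
          δ * (H.rank : ℝ) ^ 2 * ∑ k, ∑ l, c k * c l * common K (χ k) (χ l)) ∧
        ((∀ k l, k ≠ l → common K (χ k) (χ l) = 0) →
          ∑ k, (m k : ℝ) ^ 2 / common K (χ k) (χ k) ≤ δ * (H.rank : ℝ) ^ 2)) ∧
    (∀ (κ : Type) (F : κ → Type) [∀ k, Field (F k)] [∀ k, NumberField (F k)]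
        [∀ k, Algebra K (F k)] (F₀ : Type) [Field F₀] [NumberField F₀] [Algebra K F₀]
        [IsGalois K F₀], (∀ k, Nonempty (F₀ →ₐ[K] F k)) →
      DensityLE {v | ∃ k, v ∈ degOne K (F k)} (1 / (Module.finrank K F₀ : ℝ))) ∧
    (∀ (F : Type) [Field F] [NumberField F] [Algebra K F] (F₀ : Type) [Field F₀] [NumberField F₀]
        [Algebra K F₀] [IsGalois K F₀] (χ : HeightOneSpectrum (𝓞 F) → ℂ), IsHecke χ →
        Nonempty (F₀ →ₐ[K] F) →
      (∀ B : HeightOneSpectrum (𝓞 F) → ℂ[X], IsEuler H χ B → ∀ η : ℝ, 0 < η →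
        ∀ᶠ ε : ℝ in 𝓝[>] 0, size H B ε ^ 2 ≤
          (H.rank : ℝ) ^ 2 * common K χ χ / Module.finrank K F₀ + η) ∧
      ∀ m : ℤ, HasOrder H χ m →
        (m : ℝ) ^ 2 ≤ (H.rank : ℝ) ^ 2 * common K χ χ / Module.finrank K F₀ ∧
        (H.rank ^ 2 * common K χ χ < Module.finrank K F₀ → m = 0)) ∧
    (∀ D : ℕ, ∃ (n : ℕ) (p : Fin n → Twist K D), n ≤ D * H.rank ^ 2 ∧
      (∀ k, Exceptional H (p k)) ∧ (∀ k l, k ≠ l → common K (p k).χ (p l).χ = 0) ∧
      ∀ q : Twist K D, Exceptional H q → ∃ k, common K q.χ (p k).χ ≠ 0) ∧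
    ∀ (F : Type) [Field F] [NumberField F] [Algebra K F] [IsGalois K F]
      (χ χ' : HeightOneSpectrum (𝓞 F) → ℂ), IsHecke χ → IsHecke χ' →
      common K χ χ' = Nat.card {σ : F ≃ₐ[K] F // ∀ᶠ x : HeightOneSpectrum (𝓞 F) in cofinite,
        χ x = χ' (res (σ : F →+* F) x)} := by
  refine ⟨fun κ _ F _ _ _ χ δ hχ hδ => ⟨fun B hB η hη => sizes H hχ hδ hB hη,
    fun m hm => orders H hχ hδ hm⟩, fun κ F _ _ _ F₀ _ _ _ _ h => dens_galois F F₀ h,
    fun F _ _ _ F₀ _ _ _ _ χ hχ h => ⟨fun B hB η hη => single_size F₀ H hχ h hB hη,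
      fun m hm => ⟨single_order F₀ H hχ h hm, single_zero F₀ H hχ h hm⟩⟩,
    fun D => finiteness H D, fun F _ _ _ _ χ χ' h h' => common_galois h h'⟩

end Pool.Agent.Results.MP_148101_nt.WeilGroupTwists
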